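import Pool.Agent.helper1.TW.SpecB

set_option autoImplicit false

open Complex MeasureTheory Set
open scoped ComplexConjugate

namespace Pool.Agent.TW

open Pool.Agent.ZT (VV gC Bn MC cmf cmA cmI lamA muA hm Sqf)

lemma XPD_regroup (G : ℕ × ℕ → ℂ) (hG : Summable G) (h0 : ∀ x : ℕ × ℕ, x.1 * x.2 = 0 → G x = 0) :
    HasSum (fun m : ℕ => ∑ x ∈ m.divisorsAntidiagonal, G x) (∑' x, G x) := by
  have h1 := ((Equiv.sigmaFiberEquiv (fun x : ℕ × ℕ => x.1 * x.2)).hasSum_iff.mpr hG.hasSum)
  refine h1.sigma (fun m => ?_)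
  have h2 : HasSum (Set.indicator {x : ℕ × ℕ | x.1 * x.2 = m} G) (∑ x ∈ m.divisorsAntidiagonal, G x) := by
    have h3 : ∑ x ∈ m.divisorsAntidiagonal, G x =
        ∑ x ∈ m.divisorsAntidiagonal, Set.indicator {x : ℕ × ℕ | x.1 * x.2 = m} G x := by
      apply Finset.sum_congr rfl
      intro x hx
      rw [Set.indicator_of_mem]
      exact (Nat.mem_divisorsAntidiagonal.mp hx).1
    rw [h3]
    apply hasSum_sum_of_ne_finset_zero
    intro x hx
    by_cases hxm : x ∈ {x : ℕ × ℕ | x.1 * x.2 = m}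
    · rw [Set.indicator_of_mem hxm]
      apply h0
      by_contra hne
      apply hx
      rw [Nat.mem_divisorsAntidiagonal]
      have h4 : x.1 * x.2 = m := hxm
      exact ⟨h4, by rwa [h4] at hne⟩
    · exact Set.indicator_of_notMem hxm _
  exact hasSum_subtype_iff_indicator.mpr h2

lemma XPD_two (m : ℕ) (hm : m ≠ 0) : 2 ^ (ArithmeticFunction.cardFactors m) ≤ m := by
  rw [ArithmeticFunction.cardFactors_apply]
  calc 2 ^ m.primeFactorsList.length ≤ m.primeFactorsList.prod := by
        apply List.pow_card_le_prod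
        intro x hx
        exact (Nat.prime_of_mem_primeFactorsList hx).two_le
    _ = m := Nat.prod_primeFactorsList hm

lemma XPD_eb (β : ℕ → ℂ) (hβ : ∀ p : ℕ, p.Prime → ‖β p‖ ≤ 1) (m : ℕ) : ‖eb β m‖ ≤ 1 := by
  have h : eb β m = if m = 0 then 0 else m.factorization.prod (fun p a => β p ^ a / (a.factorial : ℂ)) := rfl
  rw [h]
  split_ifs with h0
  · simp
  · rw [Finsupp.prod, norm_prod]
    apply Finset.prod_le_one
    · intro p _
      exact norm_nonneg _
    · intro p hp
      have hpp : p.Prime := by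
        rw [Nat.support_factorization] at hp
        exact Nat.prime_of_mem_primeFactors hp
      rw [norm_div, norm_pow, Complex.norm_natCast]
      have h1 : ‖β p‖ ^ (m.factorization p) ≤ 1 := pow_le_one₀ (norm_nonneg _) (hβ p hpp)
      have h2 : (1 : ℝ) ≤ ((m.factorization p).factorial : ℝ) := by
        exact_mod_cast Nat.one_le_iff_ne_zero.mpr (Nat.factorial_ne_zero _)
      rw [div_le_one (by linarith)]
      exact h1.trans h2

theorem XPD (hXIA : XIA_stmt) (hXIB : XIB_stmt) (hEXK : EXK_stmt) : XPD_stmt := by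
  intro R η hη β F hβ hF hF0
  obtain ⟨hconv, hxi0, -, -, -⟩ := hXIA R η hη β
  obtain ⟨K, hK⟩ := pow_unbounded_of_one_lt (8 * R) one_lt_two
  have hR1 : 1 ≤ R := hη.R1
  have hxi : ∀ u : ℕ, ‖xi η β u‖ ≤ (u : ℝ) ^ K := by
    intro u
    have h1 := (hXIB R η hη 1 0 (fun _ => 1) β β one_pos le_rfl (fun _ => zero_le_one) (fun _ _ => by norm_num)
      (fun p hp => by simpa using hβ p hp) (fun p hp => by simpa using hβ p hp)
      (fun p _ => by simp) u).1
    refine h1.trans ?_
    unfold Pool.Agent.ZT.hm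
    split_ifs with hu
    · positivity
    · have h2 : ((8 * R) ^ (ArithmeticFunction.cardFactors u) : ℝ) ≤ (u : ℝ) ^ K := by
        calc ((8 * R) ^ (ArithmeticFunction.cardFactors u) : ℝ) ≤ (2 ^ K) ^ (ArithmeticFunction.cardFactors u) :=
              pow_le_pow_left₀ (by linarith) hK.le _
          _ = (2 ^ (ArithmeticFunction.cardFactors u)) ^ K := by
              rw [← pow_mul, ← pow_mul, mul_comm]
          _ ≤ (u : ℝ) ^ K := by
              apply pow_le_pow_left₀ (by positivity)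
              exact_mod_cast XPD_two u hu
      simpa using h2
  have hebb : ∀ m, ‖eb β m‖ ≤ 1 := XPD_eb β hβ
  have heb0 : eb β 0 = 0 := ArithmeticFunction.map_zero
  obtain ⟨C, hC0, hC⟩ := hF ((K : ℝ) + 3) (by
    have : (0 : ℝ) ≤ K := Nat.cast_nonneg K
    linarith)
  let G : ℕ × ℕ → ℂ := fun y => xi η β y.1 * (eb β y.2 * F (y.1 * y.2))
  have hGb : ∀ y : ℕ × ℕ, ‖G y‖ ≤ C * (1 / (y.1 : ℝ) ^ 2 * (1 / (y.2 : ℝ) ^ 2)) := by
    rintro ⟨d, m⟩
    change ‖xi η β d * (eb β m * F (d * m))‖ ≤ C * (1 / (d : ℝ) ^ 2 * (1 / (m : ℝ) ^ 2))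
    rcases Nat.eq_zero_or_pos d with hd | hd
    · rw [hd, hxi0, zero_mul, norm_zero]
      positivity
    rcases Nat.eq_zero_or_pos m with hm | hm
    · rw [hm, heb0, zero_mul, mul_zero, norm_zero]
      positivity
    have hd' : (0 : ℝ) < d := by exact_mod_cast hd
    have hm' : (0 : ℝ) < m := by exact_mod_cast hm
    have hd1 : (1 : ℝ) ≤ d := by exact_mod_cast hd
    have hm1 : (1 : ℝ) ≤ m := by exact_mod_cast hm
    have h1 : ‖F (d * m)‖ ≤ C * (1 / ((d : ℝ) * m) ^ (K + 3)) := by
      have h2 := hC (d * m) (Nat.mul_pos hd hm)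
      rw [Real.rpow_neg (Nat.cast_nonneg _), Nat.cast_mul] at h2
      have h3 : ((d : ℝ) * m) ^ ((K : ℝ) + 3) = ((d : ℝ) * m) ^ (K + 3) := by
        rw [← Real.rpow_natCast]
        push_cast
        rfl
      rw [h3] at h2
      rw [one_div]
      exact h2
    rw [norm_mul, norm_mul]
    calc ‖xi η β d‖ * (‖eb β m‖ * ‖F (d * m)‖)
        ≤ (d : ℝ) ^ K * (1 * (C * (1 / ((d : ℝ) * m) ^ (K + 3)))) := by
          apply mul_le_mul (hxi d) _ (by positivity) (by positivity)
          exact mul_le_mul (hebb m) h1 (norm_nonneg _) zero_le_one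
      _ = C * (1 / (d : ℝ) ^ 3 * (1 / (m : ℝ) ^ (K + 3))) := by
          rw [mul_pow, pow_add (d : ℝ) K 3]
          field_simp
      _ ≤ C * (1 / (d : ℝ) ^ 2 * (1 / (m : ℝ) ^ 2)) := by
          apply mul_le_mul_of_nonneg_left _ hC0
          apply mul_le_mul _ _ (by positivity) (by positivity)
          · apply one_div_le_one_div_of_le (by positivity)
            exact pow_le_pow_right₀ hd1 (by norm_num)
          · apply one_div_le_one_div_of_le (by positivity)
            exact pow_le_pow_right₀ hm1 (by omega)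
  have hsq : Summable (fun m : ℕ => 1 / (m : ℝ) ^ 2) := Real.summable_one_div_nat_pow.mpr one_lt_two
  have hGs : Summable G := by
    refine Summable.of_norm_bounded (g := fun y : ℕ × ℕ => C * (1 / (y.1 : ℝ) ^ 2 * (1 / (y.2 : ℝ) ^ 2))) ?_ hGb
    apply Summable.mul_left
    exact hsq.mul_of_nonneg hsq (fun _ => by positivity) (fun _ => by positivity)
  have hG0 : ∀ y : ℕ × ℕ, y.1 * y.2 = 0 → G y = 0 := by
    intro y hy
    change xi η β y.1 * (eb β y.2 * F (y.1 * y.2)) = 0
    rw [hy, hF0, mul_zero, mul_zero]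
  have hre := XPD_regroup G hGs hG0
  have hterm : (fun e : ℕ => ∑ y ∈ e.divisorsAntidiagonal, G y) = fun e : ℕ => η β e * F e := by
    funext e
    rw [hconv e, Finset.sum_mul]
    apply Finset.sum_congr rfl
    intro y hy
    change xi η β y.1 * (eb β y.2 * F (y.1 * y.2)) = _
    rw [(Nat.mem_divisorsAntidiagonal.mp hy).1, mul_assoc]
  rw [hterm] at hre
  have hsum2 : ∀ d : ℕ, Summable (fun m : ℕ => eb β m * F (d * m)) := by
    intro d
    obtain ⟨C', hC'0, hC'⟩ := hF 3 le_rfl
    refine Summable.of_norm_bounded (g := fun m : ℕ => C' * (1 / (m : ℝ) ^ 2)) (hsq.mul_left _) ?_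
    intro m
    rcases Nat.eq_zero_or_pos d with hd | hd
    · rw [hd, zero_mul, hF0, mul_zero, norm_zero]
      positivity
    rcases Nat.eq_zero_or_pos m with hm | hm
    · rw [hm, heb0, zero_mul, norm_zero]
      positivity
    have hd1 : (1 : ℝ) ≤ d := by exact_mod_cast hd
    have hm1 : (1 : ℝ) ≤ m := by exact_mod_cast hm
    have h2 := hC' (d * m) (Nat.mul_pos hd hm)
    rw [norm_mul]
    calc ‖eb β m‖ * ‖F (d * m)‖ ≤ 1 * (C' * ((d * m : ℕ) : ℝ) ^ (-(3 : ℝ))) :=
          mul_le_mul (hebb m) h2 (norm_nonneg _) zero_le_one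
      _ ≤ C' * (1 / (m : ℝ) ^ 2) := by
          rw [one_mul]
          apply mul_le_mul_of_nonneg_left _ hC'0
          rw [Real.rpow_neg (Nat.cast_nonneg _), ← one_div]
          have h3 : (((d * m : ℕ) : ℝ)) ^ (3 : ℝ) = ((d : ℝ) * m) ^ 3 := by
            push_cast
            norm_cast
          rw [h3]
          apply one_div_le_one_div_of_le (by positivity)
          calc (m : ℝ) ^ 2 ≤ (m : ℝ) ^ 3 := pow_le_pow_right₀ hm1 (by norm_num)
            _ ≤ ((d : ℝ) * m) ^ 3 := by
                apply pow_le_pow_left₀ (by linarith)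
                nlinarith
  have hinner : (fun d : ℕ => ∑' m : ℕ, G (d, m)) = fun d : ℕ => xi η β d * ∑' m : ℕ, eb β m * F (d * m) := by
    funext d
    change ∑' m : ℕ, xi η β d * (eb β m * F (d * m)) = _
    rw [tsum_mul_left]
  refine ⟨hre.summable.norm, fun d => (hsum2 d).norm, ?_, ?_, ?_⟩
  · have h := hGs.prod
    rw [hinner] at h
    exact h.norm
  · rw [hre.tsum_eq, hGs.tsum_prod]
    exact congrArg tsum hinner
  · intro d hd
    have hH := (hsum2 d).hasSum.tsum_fiberwise (fun m : ℕ => ArithmeticFunction.cardFactors m)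
    have hfun : (fun s : ℕ => ∑' m : ((fun m : ℕ => ArithmeticFunction.cardFactors m) ⁻¹' {s}), eb β (m : ℕ) * F (d * (m : ℕ))) =
        fun s : ℕ => (∑' m : ℕ, ((Bp β) ^ s) m * F (d * m)) / (s.factorial : ℂ) := by
      funext s
      rw [tsum_subtype ((fun m : ℕ => ArithmeticFunction.cardFactors m) ⁻¹' {s}) (fun m : ℕ => eb β m * F (d * m)),
        ← tsum_div_const]
      congr 1
      funext m
      have hs : (s.factorial : ℂ) ≠ 0 := by exact_mod_cast Nat.factorial_ne_zero s
      rw [hEXK β s m]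
      by_cases hm : m = 0
      · subst hm
        simp [Set.indicator, heb0]
      by_cases hms : ArithmeticFunction.cardFactors m = s
      · rw [Set.indicator_of_mem (by exact hms), if_pos ⟨hm, hms⟩]
        field_simp
      · rw [Set.indicator_of_notMem (by exact hms), if_neg (fun h => hms h.2)]
        simp
    rw [hfun] at hH
    exact ⟨hH.summable.norm, hH.tsum_eq.symm⟩

end Pool.Agent.TW
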